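import Mathlib
import Pool.Agent.Helper11.PC.Defs

/-! # GROW: groups with a Magnus system of finite depth have polynomial growth -/

set_option autoImplicit false

namespace Pool.Agent.Helper75.PC

open Pool.Agent.Helper11.PC

universe u v

lemma sum_pow_le (j n : ℕ) : ∑ i ∈ Finset.range (n + 1), j ^ (n - i) ≤ (j + 1) ^ n := by
  have h1 : ∑ i ∈ Finset.range (n + 1), j ^ (n - i) = ∑ i ∈ Finset.range (n + 1), j ^ i := by
    have := Finset.sum_range_reflect (fun i => j ^ i) (n + 1)
    simpa using this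
  rw [h1, add_pow]
  refine Finset.sum_le_sum fun i hi => ?_
  have hi' : i ≤ n := Nat.lt_succ_iff.mp (Finset.mem_range.mp hi)
  have h2 : 1 ≤ n.choose i := Nat.choose_pos hi'
  simpa using Nat.le_mul_of_pos_right (j ^ i) h2

lemma c_one {X : Type v} {Γ : Type u} [Group Γ] {D : ℕ} {c : Γ → List X → ℚ}
    (h : MagnusSys X (fun k => k ≤ D) Γ c) :
    ∀ (n : ℕ) (v : List X), v.length = n → v.length ≤ D → v ≠ [] → c 1 v = 0 := by
  intro n
  induction n using Nat.strong_induction_on with
  | _ n ih =>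
    intro v hv hD hne
    have h1 := h.mul 1 1 v hD
    rw [one_mul, Finset.sum_range_succ, List.take_length, List.drop_length, h.nil, mul_one,
      ] at h1
    have hpos : 0 < v.length := List.length_pos_iff.mpr hne
    obtain ⟨m, hm⟩ : ∃ m, v.length = m + 1 := ⟨v.length - 1, by omega⟩
    rw [hm, Finset.sum_range_succ'] at h1
    have h2 : ∑ k ∈ Finset.range m, c 1 (List.take (k + 1) v) * c 1 (List.drop (k + 1) v) = 0 := by
      refine Finset.sum_eq_zero fun k hk => ?_
      have hk' := Finset.mem_range.mp hk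
      have hlen : (List.take (k + 1) v).length = k + 1 := by
        rw [List.length_take]; omega
      have : c 1 (List.take (k + 1) v) = 0 := by
        refine ih (k + 1) (by omega) _ hlen (by omega) ?_
        intro h0
        rw [h0] at hlen
        simp at hlen
      rw [this, zero_mul]
    rw [h2] at h1
    simp only [List.take_zero, List.drop_zero, h.nil, zero_add, one_mul] at h1
    linarith

lemma bound {X : Type v} {Γ : Type u} [Group Γ] {D : ℕ} {c : Γ → List X → ℚ}
    (h : MagnusSys X (fun k => k ≤ D) Γ c) (S : Finset Γ) (X0 : Finset X) (R : ℕ) (hR : 1 ≤ R)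
    (hX0 : ∀ z ∈ S, ∀ v, v.length ≤ D → c z v ≠ 0 → ∀ x ∈ v, x ∈ X0)
    (hcR : ∀ z ∈ S, ∀ v, v.length ≤ D → |c z v| ≤ R) (l : List Γ) (hl : ∀ z ∈ l, z ∈ S) :
    (∀ v, v.length ≤ D → c l.prod v ≠ 0 → ∀ x ∈ v, x ∈ X0) ∧
    (∀ v, v.length ≤ D → |c l.prod v| ≤ ((l.length * R : ℕ) : ℚ) ^ v.length) := by
  induction l with
  | nil =>
    constructor
    · intro v hv hne x hx
      by_cases h0 : v = []
      · rw [h0] at hx; simp at hx
      · exact absurd (c_one h _ v rfl hv h0) hne
    · intro v hv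
      by_cases h0 : v = []
      · subst h0
        simp [h.nil]
      · rw [List.prod_nil, c_one h _ v rfl hv h0]
        simp
  | cons z l ih =>
    have hz : z ∈ S := hl z (by simp)
    obtain ⟨ih1, ih2⟩ := ih (fun y hy => hl y (by simp [hy]))
    have hlt : ∀ (v : List X) (i : ℕ), v.length ≤ D → (List.take i v).length ≤ D := by
      intro v i hv
      rw [List.length_take]; omega
    have hld : ∀ (v : List X) (i : ℕ), v.length ≤ D → (List.drop i v).length ≤ D := by
      intro v i hv
      rw [List.length_drop]; omega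
    constructor
    · intro v hv hne x hx
      rw [List.prod_cons, h.mul z l.prod v hv] at hne
      obtain ⟨i, -, hi⟩ := Finset.exists_ne_zero_of_sum_ne_zero hne
      have h1 : c z (List.take i v) ≠ 0 := left_ne_zero_of_mul hi
      have h2 : c l.prod (List.drop i v) ≠ 0 := right_ne_zero_of_mul hi
      rw [← List.take_append_drop i v, List.mem_append] at hx
      rcases hx with hx | hx
      · exact hX0 z hz _ (hlt v i hv) h1 x hx
      · exact ih1 _ (hld v i hv) h2 x hx
    · intro v hv
      rw [List.prod_cons, h.mul z l.prod v hv]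
      have hterm : ∀ i ∈ Finset.range (v.length + 1),
          |c z (List.take i v) * c l.prod (List.drop i v)| ≤
            (R : ℚ) ^ v.length * (l.length : ℚ) ^ (v.length - i) := by
        intro i hi
        have hi' : i ≤ v.length := Nat.lt_succ_iff.mp (Finset.mem_range.mp hi)
        rw [abs_mul]
        have h1 : |c z (List.take i v)| ≤ (R : ℚ) ^ i := by
          rcases Nat.eq_zero_or_pos i with h0 | h0
          · subst h0
            simp [h.nil]
          · refine (hcR z hz _ (hlt v i hv)).trans ?_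
            have : (R : ℚ) ^ 1 ≤ (R : ℚ) ^ i :=
              pow_le_pow_right₀ (by exact_mod_cast hR) h0
            simpa using this
        have h2 : |c l.prod (List.drop i v)| ≤ ((l.length * R : ℕ) : ℚ) ^ (v.length - i) := by
          have := ih2 _ (hld v i hv)
          rwa [List.length_drop] at this
        calc |c z (List.take i v)| * |c l.prod (List.drop i v)|
            ≤ (R : ℚ) ^ i * ((l.length * R : ℕ) : ℚ) ^ (v.length - i) :=
              mul_le_mul h1 h2 (abs_nonneg _) (by positivity)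
          _ = (R : ℚ) ^ v.length * (l.length : ℚ) ^ (v.length - i) := by
              push_cast
              rw [mul_pow, mul_comm ((l.length : ℚ) ^ (v.length - i)), ← mul_assoc, ← pow_add]
              congr 2
              omega
      refine (Finset.abs_sum_le_sum_abs _ _).trans ((Finset.sum_le_sum hterm).trans ?_)
      rw [← Finset.mul_sum]
      have h3 : (∑ i ∈ Finset.range (v.length + 1), (l.length : ℚ) ^ (v.length - i)) ≤
          ((l.length : ℚ) + 1) ^ v.length := by
        have := sum_pow_le l.length v.length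
        exact_mod_cast this
      calc (R : ℚ) ^ v.length * ∑ i ∈ Finset.range (v.length + 1), (l.length : ℚ) ^ (v.length - i)
          ≤ (R : ℚ) ^ v.length * ((l.length : ℚ) + 1) ^ v.length :=
            mul_le_mul_of_nonneg_left h3 (by positivity)
        _ = (((z :: l).length * R : ℕ) : ℚ) ^ v.length := by
            rw [List.length_cons, ← mul_pow]
            push_cast
            ring

theorem grow {X : Type v} {Γ : Type u} [Group Γ] {D : ℕ} {c : Γ → List X → ℚ}
    (h : MagnusSys X (fun k => k ≤ D) Γ c) (hint : ∀ g v, v.length ≤ D → ∃ z : ℤ, c g v = z)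
    (hfin : ∀ g, ∃ X0 : Finset X, ∀ v, v.length ≤ D → c g v ≠ 0 → ∀ x ∈ v, x ∈ X0) :
    PolyGrowth Γ := by
  classical
  intro S
  choose X1 hX1 using hfin
  set X0 : Finset X := S.biUnion X1 with hX0
  have hS0 : ∀ z ∈ S, ∀ v, v.length ≤ D → c z v ≠ 0 → ∀ x ∈ v, x ∈ X0 := by
    intro z hz v hv hne x hx
    exact Finset.mem_biUnion.mpr ⟨z, hz, hX1 z v hv hne x hx⟩
  -- finitely many words
  have hVfin : {v : List X | v.length ≤ D ∧ ∀ x ∈ v, x ∈ X0}.Finite := by
    have h1 : ((fun l : List X0 => l.map Subtype.val) ''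
        {l : List X0 | l.length ≤ D}).Finite := (List.finite_length_le _ _).image _
    refine h1.subset ?_
    rintro v ⟨hv, hx⟩
    refine ⟨v.attach.map (fun a => ⟨a.1, hx a.1 a.2⟩), ?_, ?_⟩
    · simpa using hv
    · simp [List.map_map, Function.comp_def]
  set V : Finset (List X) := hVfin.toFinset with hV
  have hVmem : ∀ v, v ∈ V ↔ v.length ≤ D ∧ ∀ x ∈ v, x ∈ X0 := by
    intro v
    rw [hV, Set.Finite.mem_toFinset]
    rfl
  -- a bound for the coefficients
  obtain ⟨R, hR1, hR⟩ : ∃ R : ℕ, 1 ≤ R ∧ ∀ z ∈ S, ∀ v, v.length ≤ D → |c z v| ≤ R := by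
    have : ∀ z : Γ, ∀ v : List X, ∃ r : ℕ, |c z v| ≤ r := fun z v => exists_nat_ge _
    choose r hr using this
    refine ⟨1 + ∑ z ∈ S, ∑ v ∈ V, r z v, by omega, fun z hz v hv => ?_⟩
    by_cases hc : c z v = 0
    · rw [hc, abs_zero]; positivity
    · have hvV : v ∈ V := (hVmem v).mpr ⟨hv, hS0 z hz v hv hc⟩
      have h1 : r z v ≤ ∑ v ∈ V, r z v := Finset.single_le_sum (f := fun v => r z v)
        (fun _ _ => Nat.zero_le _) hvV
      have h2 : ∑ v ∈ V, r z v ≤ ∑ z ∈ S, ∑ v ∈ V, r z v :=
        Finset.single_le_sum (f := fun z => ∑ v ∈ V, r z v) (fun _ _ => Nat.zero_le _) hz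
      have h3 : r z v ≤ 1 + ∑ z ∈ S, ∑ v ∈ V, r z v := by omega
      exact (hr z v).trans (by exact_mod_cast h3)
  choose! zc hzc using hint
  refine ⟨(2 * R ^ D + 3) ^ V.card, D * V.card, fun j => ?_⟩
  set M : ℕ := (j * R) ^ D + 1 with hM
  have hb := fun (l : List Γ) (hl : ∀ z ∈ l, z ∈ S) => bound h S X0 R hR1 hS0 hR l hl
  have hle : ({x : Γ | ∃ l : List Γ, l.length = j ∧ (∀ z ∈ l, z ∈ S) ∧ l.prod = x}).ncard ≤
      ((Fintype.piFinset (fun _ : V => Finset.Icc (-(M : ℤ)) M) : Finset (V → ℤ)) :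
        Set (V → ℤ)).ncard := by
    refine Set.ncard_le_ncard_of_injOn (fun g => fun v : V => zc g v) ?_ ?_ (Finset.finite_toSet _)
    · rintro g ⟨l, hlen, hl, rfl⟩
      rw [Finset.mem_coe, Fintype.mem_piFinset]
      intro v
      have hv := (hVmem v.1).mp v.2
      have h1 := (hb l hl).2 v.1 hv.1
      rw [hzc l.prod v.1 hv.1, hlen] at h1
      have h2 : ((j * R : ℕ) : ℚ) ^ v.1.length ≤ ((M : ℕ) : ℚ) := by
        rcases Nat.eq_zero_or_pos (j * R) with h0 | h0
        · rw [h0]
          rcases Nat.eq_zero_or_pos v.1.length with h3 | h3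
          · rw [h3, hM]; push_cast
            have : (0 : ℚ) ≤ ((j : ℚ) * R) ^ D := by positivity
            simp only [pow_zero]; linarith
          · rw [Nat.cast_zero, zero_pow (by omega)]; positivity
        · have h3 : (j * R) ^ v.1.length ≤ (j * R) ^ D := Nat.pow_le_pow_right h0 hv.1
          have h4 : (j * R) ^ v.1.length ≤ M := by omega
          exact_mod_cast h4
      have h5 : |((zc l.prod v.1 : ℤ) : ℚ)| ≤ ((M : ℕ) : ℚ) := h1.trans h2
      have h6 : |zc l.prod v.1| ≤ (M : ℤ) := by exact_mod_cast h5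
      rw [Finset.mem_Icc]
      exact abs_le.mp h6
    · rintro g ⟨l, hlen, hl, rfl⟩ g' ⟨l', hlen', hl', rfl⟩ hgg
      refine h.sep _ _ fun v hv => ?_
      by_cases hvV : v ∈ V
      · have := congrFun hgg ⟨v, hvV⟩
        simp only at this
        rw [hzc _ v hv, hzc _ v hv, this]
      · have h0 : ∀ l : List Γ, (∀ z ∈ l, z ∈ S) → c l.prod v = 0 := by
          intro l hl
          by_contra hne
          exact hvV ((hVmem v).mpr ⟨hv, (hb l hl).1 v hv hne⟩)
        rw [h0 l hl, h0 l' hl']
  refine hle.trans ?_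
  rw [Set.ncard_coe_finset, Fintype.card_piFinset]
  simp only [Int.card_Icc, Finset.prod_const, Finset.card_univ, Fintype.card_coe]
  have h7 : ((M : ℤ) + 1 - -(M : ℤ)).toNat = 2 * (j * R) ^ D + 3 := by
    rw [hM]; push_cast
    have : ((j : ℤ) * R) ^ D + 1 + 1 - -(((j : ℤ) * R) ^ D + 1) =
      ((2 * (j * R) ^ D + 3 : ℕ) : ℤ) := by push_cast; ring
    rw [this, Int.toNat_natCast]
  rw [h7]
  have h8 : 2 * (j * R) ^ D + 3 ≤ (2 * R ^ D + 3) * (j + 1) ^ D := by
    have h9 : j ^ D ≤ (j + 1) ^ D := Nat.pow_le_pow_left (by omega) D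
    have h10 : 1 ≤ (j + 1) ^ D := Nat.one_le_pow _ _ (by omega)
    rw [mul_pow]
    have h11 : j ^ D * R ^ D ≤ (j + 1) ^ D * R ^ D := Nat.mul_le_mul_right _ h9
    nlinarith
  calc (2 * (j * R) ^ D + 3) ^ V.card ≤ ((2 * R ^ D + 3) * (j + 1) ^ D) ^ V.card :=
        Nat.pow_le_pow_left h8 _
    _ = (2 * R ^ D + 3) ^ V.card * (j + 1) ^ (D * V.card) := by rw [mul_pow, ← pow_mul]

end Pool.Agent.Helper75.PC
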